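import Mathlib

/-!
# The first Grigorchuk group: definitions

The group acts on the set `List Bool` of vertices of the binary rooted tree.
`a` flips the first letter; `b = (a, c)`, `c = (a, d)`, `d = (1, b)`.
-/

namespace Helper45.Grig

/-- The permutation of `List Bool` acting as `p` below `false` and as `q` below `true`. -/
def pairFun (p q : Equiv.Perm (List Bool)) : List Bool → List Bool
  | [] => []
  | false :: w => false :: p w
  | true :: w => true :: q w

def pair (p q : Equiv.Perm (List Bool)) : Equiv.Perm (List Bool) where
  toFun := pairFun p q
  invFun := pairFun p⁻¹ q⁻¹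
  left_inv := by
    intro w
    rcases w with _ | ⟨x, w⟩
    · rfl
    · cases x <;> simp [pairFun]
  right_inv := by
    intro w
    rcases w with _ | ⟨x, w⟩
    · rfl
    · cases x <;> simp [pairFun]

/-- The flip of the first letter. -/
def flipFun : List Bool → List Bool
  | [] => []
  | x :: w => (!x) :: w

def ga : Equiv.Perm (List Bool) where
  toFun := flipFun
  invFun := flipFun
  left_inv := by
    intro w
    rcases w with _ | ⟨x, w⟩
    · rfl
    · simp [flipFun]
  right_inv := by
    intro w
    rcases w with _ | ⟨x, w⟩
    · rfl
    · simp [flipFun]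

/-- The three directed generators, as functions: `0 ↦ b`, `1 ↦ c`, `2 ↦ d`. -/
def dirFun : Fin 3 → List Bool → List Bool
  | _, [] => []
  | 0, false :: w => false :: flipFun w
  | 0, true :: w => true :: dirFun 1 w
  | 1, false :: w => false :: flipFun w
  | 1, true :: w => true :: dirFun 2 w
  | 2, false :: w => false :: w
  | 2, true :: w => true :: dirFun 0 w

theorem flipFun_flipFun (w : List Bool) : flipFun (flipFun w) = w := by
  rcases w with _ | ⟨x, w⟩
  · rfl
  · simp [flipFun]

theorem dirFun_dirFun : ∀ (w : List Bool) (i : Fin 3), dirFun i (dirFun i w) = w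
  | [], i => by fin_cases i <;> rfl
  | false :: w, i => by
      fin_cases i <;> simp [dirFun, flipFun_flipFun]
  | true :: w, i => by
      have h0 := dirFun_dirFun w 0
      have h1 := dirFun_dirFun w 1
      have h2 := dirFun_dirFun w 2
      fin_cases i <;> simp [dirFun, h0, h1, h2]

/-- The directed generators `b`, `c`, `d` as permutations. -/
def gdir (i : Fin 3) : Equiv.Perm (List Bool) where
  toFun := dirFun i
  invFun := dirFun i
  left_inv := fun w => dirFun_dirFun w i
  right_inv := fun w => dirFun_dirFun w i

def gb : Equiv.Perm (List Bool) := gdir 0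
def gc : Equiv.Perm (List Bool) := gdir 1
def gd : Equiv.Perm (List Bool) := gdir 2

/-- The generating set. -/
def gens : Set (Equiv.Perm (List Bool)) := {ga, gb, gc, gd}

/-- The first Grigorchuk group. -/
def GG : Subgroup (Equiv.Perm (List Bool)) := Subgroup.closure gens

end Helper45.Grig
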